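import Pool.Agent.H52.MG.Basic
import Pool.Agent.H52.MG.Targets

/-!
# FC: the finest class structure with bar graph the square of `G`
-/

set_option autoImplicit false

noncomputable section

open Classical
open Pool.Agent.H52.MG

namespace Pool.Agent.H13.MG

section
variable {V : Type} [Fintype V]

omit [Fintype V] in
lemma ncard_pair_le' (u w : V) : ({u, w} : Set V).ncard ≤ 2 := by
  refine (Set.ncard_insert_le _ _).trans ?_
  rw [Set.ncard_singleton]

/-- leaves go to their neighbour, everything else is fixed -/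
def lc (G : SimpleGraph V) (v : V) : V :=
  if h : ∃ w, G.Adj v w ∧ ∀ z, G.Adj v z → z = w then h.choose else v

lemma lc_leaf {G : SimpleGraph V} {u w : V} (h : G.Adj u w) (hl : ∀ z, G.Adj u z → z = w) :
    lc G u = w := by
  have he : ∃ w, G.Adj u w ∧ ∀ z, G.Adj u z → z = w := ⟨w, h, hl⟩
  unfold lc
  rw [dif_pos he]
  exact hl _ he.choose_spec.1

lemma lc_nonleaf {G : SimpleGraph V} {u : V} (h : ¬ ∃ w, G.Adj u w ∧ ∀ z, G.Adj u z → z = w) :
    lc G u = u := by
  unfold lc
  rw [dif_neg h]

lemma lc_cases (G : SimpleGraph V) (u : V) :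
    (G.Adj u (lc G u) ∧ ∀ z, G.Adj u z → z = lc G u) ∨
      (lc G u = u ∧ ¬ ∃ w, G.Adj u w ∧ ∀ z, G.Adj u z → z = w) := by
  by_cases h : ∃ w, G.Adj u w ∧ ∀ z, G.Adj u z → z = w
  · left
    obtain ⟨w, h1, h2⟩ := h
    rw [lc_leaf h1 h2]
    exact ⟨h1, h2⟩
  · right
    exact ⟨lc_nonleaf h, h⟩

lemma lc_two {G : SimpleGraph V} {z u w : V} (h1 : G.Adj z u) (h2 : G.Adj z w) (h : u ≠ w) :
    lc G z = z := by
  apply lc_nonleaf
  rintro ⟨y, _, hy⟩
  exact h ((hy u h1).trans (hy w h2).symm)

/-- neighbour of a leaf is not a leaf -/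
lemma leaf_nbr {G : SimpleGraph V} (hn : 5 ≤ Fintype.card V) (hC : Conn4 (sq G)) {u w : V}
    (h : G.Adj u w) (hl : ∀ z, G.Adj u z → z = w) : lc G w = w := by
  rcases lc_cases G w with ⟨_, h2⟩ | ⟨h1, _⟩
  swap
  · exact h1
  exfalso
  have hwu : ∀ z, G.Adj w z → z = u := by
    intro z hz
    rw [h2 z hz, ← h2 u h.symm]
  have hB : ((({u, w} : Set V)ᶜ : Set V)).Nonempty := by
    rw [Set.nonempty_compl]
    intro he
    have h3 : (Set.univ : Set V).ncard ≤ 2 := by
      rw [← he]
      exact ncard_pair_le' u w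
    rw [Set.ncard_univ, Nat.card_eq_fintype_card] at h3
    omega
  obtain ⟨a, ha, b, hb, hab⟩ := hC ∅ {u, w} ({u, w} : Set V)ᶜ
    (fun v => by
      by_cases hv : v ∈ ({u, w} : Set V)
      · exact Or.inr (Or.inl hv)
      · exact Or.inr (Or.inr hv))
    disjoint_compl_right (Set.empty_disjoint _) (Set.empty_disjoint _) ⟨u, by simp⟩ hB
    (by simp)
  have key : ∀ x y, x ∈ ({u, w} : Set V) → G.Adj x y → y ∈ ({u, w} : Set V) := by
    intro x y hx hxy
    rcases hx with rfl | hx
    · rw [hl y hxy]; simp
    · rw [Set.mem_singleton_iff] at hx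
      subst hx
      rw [hwu y hxy]; simp
  rcases hab.2 with h4 | ⟨z, h4, h5⟩
  · exact hb (key _ _ ha h4)
  · exact hb (key _ _ (key _ _ ha h4) h5)

lemma mem_Bd_lc {G : SimpleGraph V} (hn : 5 ≤ Fintype.card V) (hC : Conn4 (sq G)) {u v : V} :
    u ∈ Bd G (lc G) v ↔ u = lc G v ∨ G.Adj u (lc G v) := by
  constructor
  · rintro (h | ⟨w, h1, h2⟩)
    · rcases lc_cases G u with ⟨h3, _⟩ | ⟨h3, _⟩
      · right
        rw [← h]
        exact h3
      · left
        rw [← h, h3]
    · rcases lc_cases G w with ⟨_, h3⟩ | ⟨h3, _⟩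
      · left
        rw [← h2]
        exact h3 u h1.symm
      · right
        rw [← h2, h3]
        exact h1
  · have hid : lc G (lc G v) = lc G v := by
      rcases lc_cases G v with ⟨h3, h4⟩ | ⟨h3, _⟩
      · exact leaf_nbr hn hC h3 h4
      · rw [h3, h3]
    rintro (h | h)
    · left
      rw [h, hid]
    · right
      exact ⟨_, h, hid⟩

theorem fc : T_FC := by
  intro V _ G hn hC
  refine ⟨lc G, ?_, ?_, ?_⟩
  · ext u w
    constructor
    · rintro ⟨hne, v, hu, hw⟩
      rw [mem_Bd_lc hn hC] at hu hw
      refine ⟨hne, ?_⟩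
      rcases hu with hu | hu
      · rcases hw with hw | hw
        · exact absurd (hu.trans hw.symm) hne
        · left
          rw [hu]
          exact hw.symm
      · rcases hw with hw | hw
        · left
          rw [hw]
          exact hu
        · right
          exact ⟨_, hu, hw.symm⟩
    · rintro ⟨hne, h⟩
      refine ⟨hne, ?_⟩
      rcases h with h | ⟨z, h1, h2⟩
      · rcases lc_cases G w with ⟨_, h4⟩ | ⟨h3, _⟩
        · -- `w` is a leaf at `u`
          have hwu : ∀ z, G.Adj w z → z = u := by
            intro z hz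
            rw [h4 z hz, ← h4 u h.symm]
          have hu := leaf_nbr hn hC h.symm hwu
          refine ⟨u, ?_, ?_⟩
          · rw [mem_Bd_lc hn hC, hu]
            exact Or.inl rfl
          · rw [mem_Bd_lc hn hC, hu]
            exact Or.inr h.symm
        · refine ⟨w, ?_, ?_⟩
          · rw [mem_Bd_lc hn hC, h3]
            exact Or.inr h
          · rw [mem_Bd_lc hn hC, h3]
            exact Or.inl rfl
      · have hz := lc_two h1.symm h2 hne
        refine ⟨z, ?_, ?_⟩
        · rw [mem_Bd_lc hn hC, hz]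
          exact Or.inr h1
        · rw [mem_Bd_lc hn hC, hz]
          exact Or.inr h2.symm
  · intro Z _ a u w ha hu hw huw hau haw hout
    by_contra hcon
    push Not at hcon
    obtain ⟨hc1, hc2⟩ := hcon
    have hA : (Z \ {a}).Nonempty := by
      by_contra hne
      rw [Set.not_nonempty_iff_eq_empty, Set.sdiff_eq_empty] at hne
      have := Set.ncard_le_ncard hne (Set.toFinite _)
      rw [Set.ncard_singleton] at this
      omega
    have hB : (Zᶜ \ {u, w}).Nonempty := by
      by_contra hne
      rw [Set.not_nonempty_iff_eq_empty, Set.sdiff_eq_empty] at hne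
      have := Set.ncard_le_ncard hne (Set.toFinite _)
      have h3 := ncard_pair_le' u w
      omega
    obtain ⟨x, hx, y, hy, hxy⟩ := hC {a, u, w} (Z \ {a}) (Zᶜ \ {u, w})
      (fun v => by
        simp only [Set.mem_insert_iff, Set.mem_singleton_iff, Set.mem_sdiff, Set.mem_compl_iff]
        tauto)
      (by
        rw [Set.disjoint_left]
        rintro x hx hx'
        exact hx'.1 hx.1)
      (by
        rw [Set.disjoint_left]
        rintro x hx hx'
        rcases hx with rfl | rfl | hx
        · exact hx'.2 rfl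
        · exact hu hx'.1
        · rw [Set.mem_singleton_iff] at hx
          subst hx
          exact hw hx'.1)
      (by
        rw [Set.disjoint_left]
        rintro x hx hx'
        rcases hx with rfl | hx
        · exact hx'.1 ha
        · exact hx'.2 hx)
      hA hB
      (by
        refine (Set.ncard_insert_le _ _).trans ?_
        have := ncard_pair_le' u w
        omega)
    rcases hxy.2 with h | ⟨z, h1, h2⟩
    · exact hx.2 (hout x y hx.1 hy.1 h).1
    · by_cases hz : z ∈ Z
      · have h3 := (hout z y hz hy.1 h2).2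
        exact hy.2 h3
      · exact hx.2 (hout x z hx.1 hz h1).1
  · intro d hd u w huw hl
    apply hd
    rw [lc_leaf huw hl, leaf_nbr hn hC huw hl]

end

end Pool.Agent.H13.MG
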