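import Pool.Agent.H52.MG.Basic
import Pool.Agent.H52.MG.Targets

/-!
# N1: a two dimensional space of relative motions does not pass through `s`
-/

set_option autoImplicit false

noncomputable section

open Classical Module
open scoped Matrix
open Pool.Agent.H52.MG

namespace Pool.Agent.H13.MG

/-! ### generic subconfigurations -/

lemma gen_comp {V W : Type} [Fintype V] [Fintype W] {P : W → Vec} (hP : Gen P) (f : V → W)
    (hf : Function.Injective f) : Gen (fun v => P (f v)) := by
  unfold Gen at hP ⊢
  have := hP.comp (fun x : V × Fin 3 => (f x.1, x.2)) (by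
    intro x y h
    simp only [Prod.mk.injEq] at h
    exact Prod.ext (hf h.1) h.2)
  exact this

/-! ### the structure with one added atom -/

section
variable {V : Type} [Fintype V]

/-- `G` with an additional atom adjacent to `s` -/
def Gadd (G : SimpleGraph V) (s : V) : SimpleGraph (Option V) where
  Adj x y := (∃ u w, x = some u ∧ y = some w ∧ G.Adj u w) ∨
    (x = none ∧ y = some s) ∨ (x = some s ∧ y = none)
  symm := ⟨fun _ _ h => by
    rcases h with ⟨u, w, h1, h2, h3⟩ | h | h
    · exact Or.inl ⟨w, u, h2, h1, h3.symm⟩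
    · exact Or.inr (Or.inr ⟨h.2, h.1⟩)
    · exact Or.inr (Or.inl ⟨h.2, h.1⟩)⟩
  loopless := ⟨fun x h => by
    rcases h with ⟨u, w, h1, h2, h3⟩ | h | h
    · rw [h1] at h2
      cases h2
      exact G.loopless.1 _ h3
    · rw [h.1] at h
      simp at h
    · rw [h.1] at h
      simp at h⟩

/-- the additional atom is put into the class of `t` -/
def cadd (c : V → V) (t : V) : Option V → Option V
  | none => some (c t)
  | some v => some (c v)

lemma pt_add {L : Type} (d : Option V → L) (t : V) (h : d none = d (some t)) :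
    pt d = pt (fun v => d (some v)) := by
  unfold pt
  congr 1
  ext x
  simp only [Finset.mem_image, Finset.mem_univ, true_and]
  constructor
  · rintro ⟨y, rfl⟩
    cases y with
    | none => exact ⟨t, h.symm⟩
    | some v => exact ⟨v, rfl⟩
  · rintro ⟨v, rfl⟩
    exact ⟨some v, rfl⟩

lemma cr_add (G : SimpleGraph V) (s : V) {L : Type} (d : Option V → L) :
    cr2 G (fun v => d (some v)) ≤ cr2 (Gadd G s) d := by
  unfold cr2
  apply Finset.card_le_card_of_injOn (fun x => (some x.1, some x.2))
  · intro x hx
    simp only [Finset.coe_filter, Finset.mem_univ, true_and, Set.mem_setOf_eq] at hx ⊢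
    exact ⟨Or.inl ⟨_, _, rfl, rfl, hx.1⟩, hx.2⟩
  · intro x _ y _ h
    simp only [Prod.mk.injEq, Option.some.injEq] at h
    exact Prod.ext h.1 h.2

lemma cr_add' (G : SimpleGraph V) (s : V) {L : Type} (d : Option V → L)
    (h : d none ≠ d (some s)) :
    cr2 G (fun v => d (some v)) + 2 ≤ cr2 (Gadd G s) d := by
  unfold cr2
  have h1 : (((Finset.univ : Finset (V × V)).filter
      (fun x => G.Adj x.1 x.2 ∧ d (some x.1) ≠ d (some x.2))).image
        (fun x => ((some x.1, some x.2) : Option V × Option V))).card =
      ((Finset.univ : Finset (V × V)).filter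
      (fun x => G.Adj x.1 x.2 ∧ d (some x.1) ≠ d (some x.2))).card := by
    apply Finset.card_image_of_injective
    intro x y h
    simp only [Prod.mk.injEq, Option.some.injEq] at h
    exact Prod.ext h.1 h.2
  have h2 : ({((none : Option V), some s), (some s, none)} : Finset (Option V × Option V)).card
      = 2 := by
    apply Finset.card_pair
    simp
  rw [← h1, ← h2, ← Finset.card_union_of_disjoint]
  · apply Finset.card_le_card
    intro x hx
    simp only [Finset.mem_union, Finset.mem_image, Finset.mem_filter, Finset.mem_univ, true_and,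
      Finset.mem_insert, Finset.mem_singleton] at hx ⊢
    rcases hx with ⟨y, hy, rfl⟩ | rfl | rfl
    · exact ⟨Or.inl ⟨_, _, rfl, rfl, hy.1⟩, hy.2⟩
    · exact ⟨Or.inr (Or.inl ⟨rfl, rfl⟩), h⟩
    · exact ⟨Or.inr (Or.inr ⟨rfl, rfl⟩), h.symm⟩
  · rw [Finset.disjoint_left]
    intro x hx hx'
    simp only [Finset.mem_image, Finset.mem_insert, Finset.mem_singleton] at hx hx'
    obtain ⟨y, _, rfl⟩ := hx
    simp at hx'

lemma cnd_add (G : SimpleGraph V) (c : V → V) (s t : V) (h2 : Cnd G c 2)
    (h0 : ∀ d : V → V, Coarse c d → d s = d t → 0 ≤ s2 G d) :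
    Cnd (Gadd G s) (cadd c t) 0 := by
  intro d hd
  have hnt : d none = d (some t) := hd _ _ rfl
  have hco : Coarse c (fun v => d (some v)) := by
    intro u w huw
    exact hd _ _ (by simp only [cadd, huw])
  obtain ⟨d', hd', hp', hc', hs'⟩ := exists_relabel' G (fun v => d (some v))
  have hco' : Coarse c d' := fun u w e => (hd' u w).mpr (hco u w e)
  by_cases hst : d (some s) = d (some t)
  · have h3 := h0 d' hco' ((hd' s t).mpr hst)
    have h4 := cr_add G s d
    have h5 := pt_add d t hnt
    have h6 : s2 G (fun v => d (some v)) ≤ s2 (Gadd G s) d := by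
      unfold s2
      rw [h5]
      have : (cr2 G (fun v => d (some v)) : ℤ) ≤ cr2 (Gadd G s) d := by exact_mod_cast h4
      linarith
    simp only [Nat.cast_zero, mul_zero, neg_zero]
    linarith
  · have h3 := h2 d' hco'
    have h4 := cr_add' G s d (by rw [hnt]; exact fun e => hst e.symm)
    have h5 := pt_add d t hnt
    have h6 : s2 G (fun v => d (some v)) + 10 ≤ s2 (Gadd G s) d := by
      unfold s2
      rw [h5]
      have : (cr2 G (fun v => d (some v)) : ℤ) + 2 ≤ cr2 (Gadd G s) d := by exact_mod_cast h4
      linarith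
    simp only [Nat.cast_zero, mul_zero, neg_zero]
    push_cast at h3
    linarith

/-! ### subsystems -/

/-- motions with `S s = S t` -/
def Ksys (G : SimpleGraph V) (c : V → V) (p : V → Vec) (s t : V) : Submodule ℝ (V → Scr) :=
  Gsys ({x | c x.1 = c x.2} ∪ {(s, t)}) {x | G.Adj x.1 x.2.1 ∧ x.2.2 = x.1} ∅ p

/-- motions such that `S s` and `S t` agree at `s` -/
def Lsys (G : SimpleGraph V) (c : V → V) (p : V → Vec) (s t : V) : Submodule ℝ (V → Scr) :=
  Gsys {x | c x.1 = c x.2} ({x | G.Adj x.1 x.2.1 ∧ x.2.2 = x.1} ∪ {(s, t, s)}) ∅ p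

lemma mem_Ksys {G : SimpleGraph V} {c : V → V} {p : V → Vec} {s t : V} {S : V → Scr} :
    S ∈ Ksys G c p s t ↔ S ∈ Mot G c p ∧ S s = S t := by
  constructor
  · intro h
    exact ⟨⟨fun x hx => h.1 x (Or.inl hx), h.2.1, h.2.2⟩, h.1 (s, t) (Or.inr rfl)⟩
  · rintro ⟨h, h'⟩
    refine ⟨fun x hx => ?_, h.2.1, h.2.2⟩
    rcases hx with hx | hx
    · exact h.1 x hx
    · rw [Set.mem_singleton_iff] at hx
      subst hx
      exact h'

lemma mem_Lsys {G : SimpleGraph V} {c : V → V} {p : V → Vec} {s t : V} {S : V → Scr} :
    S ∈ Lsys G c p s t ↔ S ∈ Mot G c p ∧ ev (S s) (p s) = ev (S t) (p s) := by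
  constructor
  · intro h
    exact ⟨⟨h.1, fun x hx => h.2.1 x (Or.inl hx), h.2.2⟩, h.2.1 (s, t, s) (Or.inr rfl)⟩
  · rintro ⟨h, h'⟩
    refine ⟨h.1, fun x hx => ?_, h.2.2⟩
    rcases hx with hx | hx
    · exact h.2.1 x hx
    · rw [Set.mem_singleton_iff] at hx
      subst hx
      exact h'

lemma finrank_Urel_add (G : SimpleGraph V) (c : V → V) (p : V → Vec) (s t : V) :
    finrank ℝ (Urel G c p s t) + finrank ℝ (Ksys G c p s t) = finrank ℝ (Mot G c p) := by
  have h := LinearMap.finrank_range_add_finrank_ker ((dif s t).domRestrict (Mot G c p))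
  rw [LinearMap.range_domRestrict] at h
  have h2 : (LinearMap.ker ((dif s t).domRestrict (Mot G c p))).map (Mot G c p).subtype =
      Ksys G c p s t := by
    ext S
    rw [mem_Ksys]
    simp only [Submodule.mem_map, LinearMap.mem_ker, Submodule.subtype_apply]
    constructor
    · rintro ⟨x, hx, rfl⟩
      refine ⟨x.2, ?_⟩
      have : x.1 s - x.1 t = 0 := hx
      exact sub_eq_zero.mp this
    · rintro ⟨h1, h2⟩
      refine ⟨⟨S, h1⟩, ?_, rfl⟩
      change S s - S t = 0
      rw [h2, sub_self]
  rw [← h2, Submodule.finrank_map_subtype_eq]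
  exact h

lemma finrank_gen (hGS : T_GS) (E : Set (V × V)) (A : Set (V × V × V))
    (B : Set (V × V × V × V)) (p p' : V → Vec) (hp : Gen p) (hp' : Gen p') :
    finrank ℝ (Gsys E A B p) = finrank ℝ (Gsys E A B p') :=
  le_antisymm (hGS V E A B p p' hp) (hGS V E A B p' p hp')

/-- if the relative motions form a plane of screws vanishing at `p s` then the same is true for
every generic configuration -/
lemma transfer (hGS : T_GS) (G : SimpleGraph V) (c : V → V) (s t : V) (p p' : V → Vec)
    (hp : Gen p) (hp' : Gen p') (h2 : finrank ℝ (Urel G c p s t) = 2)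
    (h0 : ∀ S ∈ Urel G c p s t, ev S (p s) = 0) :
    finrank ℝ (Urel G c p' s t) = 2 ∧ ∀ S ∈ Urel G c p' s t, ev S (p' s) = 0 := by
  have hM : finrank ℝ (Mot G c p) = finrank ℝ (Mot G c p') := finrank_gen hGS _ _ _ p p' hp hp'
  have hK : finrank ℝ (Ksys G c p s t) = finrank ℝ (Ksys G c p' s t) :=
    finrank_gen hGS _ _ _ p p' hp hp'
  have hL : finrank ℝ (Lsys G c p s t) = finrank ℝ (Lsys G c p' s t) :=
    finrank_gen hGS _ _ _ p p' hp hp'
  have e1 := finrank_Urel_add G c p s t
  have e2 := finrank_Urel_add G c p' s t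
  have hLM : Lsys G c p s t = Mot G c p := by
    ext S
    rw [mem_Lsys]
    refine ⟨fun h => h.1, fun h => ⟨h, ?_⟩⟩
    have := h0 (S s - S t) (mem_Urel.mpr ⟨S, h, rfl⟩)
    rw [ev_sub] at this
    exact sub_eq_zero.mp this
  have hLM' : Lsys G c p' s t = Mot G c p' := by
    apply Submodule.eq_of_le_of_finrank_le
    · intro S hS
      exact (mem_Lsys.mp hS).1
    · rw [← hL, hLM, hM]
  refine ⟨by omega, ?_⟩
  intro T hT
  obtain ⟨S, hS, rfl⟩ := mem_Urel.mp hT
  rw [← hLM'] at hS
  rw [ev_sub, (mem_Lsys.mp hS).2, sub_self]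

/-! ### screws vanishing at a point -/

/-- value at a point as a linear map -/
def evL (x : Vec) : Scr →ₗ[ℝ] Vec where
  toFun S := ev S x
  map_add' S T := ev_add S T x
  map_smul' r S := ev_smul r S x

lemma finrank_ker_evL (x : Vec) : finrank ℝ (LinearMap.ker (evL x)) = 3 := by
  have h := LinearMap.finrank_range_add_finrank_ker (evL x)
  have h2 : LinearMap.range (evL x) = ⊤ := by
    rw [LinearMap.range_eq_top]
    intro y
    refine ⟨((0 : Vec), y), ?_⟩
    change y + (0 : Vec) ⨯₃ x = y
    simp
  rw [h2, finrank_top, finrank_scr] at h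
  have h3 : finrank ℝ Vec = 3 := by simp [Vec]
  omega

/-! ### the new bar is independent of the relative motions -/

lemma lin_notMem (hMT : T_MT) (G : SimpleGraph V) (c : V → V) (s t : V) (h2 : Cnd G c 2)
    (h0 : ∀ d : V → V, Coarse c d → d s = d t → 0 ≤ s2 G d) (P : Option V → Vec) (hP : Gen P)
    (hne : P none ≠ P (some s)) :
    lin (P none) (P (some s)) ∉ Urel G c (fun v => P (some v)) s t := by
  intro hmem
  obtain ⟨S, hS, hST⟩ := mem_Urel.mp hmem
  rw [mem_Mot] at hS
  have hfin := hMT (Option V) (Gadd G s) (cadd c t) 0 P hP (cnd_add G c s t h2 h0)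
  rw [add_zero] at hfin
  let S' : Option V → Scr := fun x => x.elim (S t) S
  have hS' : S' ∈ Mot (Gadd G s) (cadd c t) P := by
    rw [mem_Mot]
    constructor
    · intro u w huw
      cases u with
      | none =>
        cases w with
        | none => rfl
        | some w => exact hS.1 t w (Option.some_injective _ huw)
      | some u =>
        cases w with
        | none => exact hS.1 u t (Option.some_injective _ huw)
        | some w => exact hS.1 u w (Option.some_injective _ huw)
    · intro u w huw
      rcases huw with ⟨u', w', rfl, rfl, h⟩ | ⟨rfl, rfl⟩ | ⟨rfl, rfl⟩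
      · exact hS.2 u' w' h
      · change ev (S t) (P none) = ev (S s) (P none)
        have : ev (S s - S t) (P none) = 0 := by rw [hST, ev_lin_left]
        rw [ev_sub] at this
        exact (sub_eq_zero.mp this).symm
      · change ev (S s) (P (some s)) = ev (S t) (P (some s))
        have : ev (S s - S t) (P (some s)) = 0 := by rw [hST, ev_lin_right]
        rw [ev_sub] at this
        exact sub_eq_zero.mp this
  have h3 : S s = S t := Mot_const hfin hS' (some s) none
  rw [h3, sub_self] at hST
  exact lin_ne_zero _ _ hne hST.symm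

/-- every screw vanishing at `p s` is a relative motion plus a rotation about the new bar -/
lemma decompose (hMT : T_MT) (G : SimpleGraph V) (c : V → V) (s t : V) (h2 : Cnd G c 2)
    (h0 : ∀ d : V → V, Coarse c d → d s = d t → 0 ≤ s2 G d) (P : Option V → Vec) (hP : Gen P)
    (hne : P none ≠ P (some s))
    (hf : finrank ℝ (Urel G c (fun v => P (some v)) s t) = 2)
    (hz : ∀ S ∈ Urel G c (fun v => P (some v)) s t, ev S (P (some s)) = 0)
    (X : Scr) (hX : ev X (P (some s)) = 0) :
    ∃ S ∈ Mot G c (fun v => P (some v)), ∃ r : ℝ,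
      X = (S s - S t) + r • lin (P none) (P (some s)) := by
  set U := Urel G c (fun v => P (some v)) s t with hU
  set b := lin (P none) (P (some s)) with hb
  have hbU : b ∉ U := lin_notMem hMT G c s t h2 h0 P hP hne
  have hlt : U < U ⊔ Submodule.span ℝ {b} := by
    refine lt_of_le_of_ne le_sup_left ?_
    intro he
    apply hbU
    rw [he]
    exact Submodule.mem_sup_right (Submodule.mem_span_singleton_self b)
  have h3 := Submodule.finrank_lt_finrank_of_lt hlt
  have hle : U ⊔ Submodule.span ℝ {b} ≤ LinearMap.ker (evL (P (some s))) := by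
    rw [sup_le_iff]
    constructor
    · intro T hT
      exact hz T hT
    · rw [Submodule.span_singleton_le_iff_mem]
      exact ev_lin_right _ _
  have heq : U ⊔ Submodule.span ℝ {b} = LinearMap.ker (evL (P (some s))) := by
    apply Submodule.eq_of_le_of_finrank_le hle
    rw [finrank_ker_evL]
    omega
  have hXm : X ∈ U ⊔ Submodule.span ℝ {b} := by
    rw [heq]
    exact hX
  obtain ⟨Y, hY, Z, hZ, hYZ⟩ := Submodule.mem_sup.mp hXm
  obtain ⟨r, rfl⟩ := Submodule.mem_span_singleton.mp hZ
  obtain ⟨S, hS, rfl⟩ := mem_Urel.mp hY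
  exact ⟨S, hS, r, hYZ.symm⟩

end

theorem n1 (hDBL : T_DBL) (hMT : T_MT) (hEXG : T_EXG) (hGS : T_GS) (hGP : T_GP) : T_N1 := by
  intro V _ G c s t p hp hst h2 h0 hf
  by_contra hcon
  push Not at hcon
  obtain ⟨P, hP⟩ := hEXG (Bool × Option V)
  have hGPP := (hGP _ P hP).1
  -- the two copies
  have key : ∀ i : Bool, Gen (fun x : Option V => P (i, x)) := fun i =>
    gen_comp hP (fun x => (i, x)) (fun x y h => (Prod.mk.inj h).2)
  have key2 : ∀ i : Bool, Gen (fun x : V => P (i, some x)) := fun i =>
    gen_comp hP (fun x => (i, some x)) (fun x y h => Option.some_injective _ (Prod.mk.inj h).2)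
  have key3 := fun i => transfer hGS G c s t p _ hp (key2 i) hf hcon
  set X := lin (P (false, some s)) (P (true, some s)) with hX
  have hX0 : X ≠ 0 := lin_ne_zero _ _ (hGPP _ _ (by simp))
  have hXi : ∀ i : Bool, ev X (P (i, some s)) = 0 := by
    intro i
    cases i
    · exact ev_lin_left _ _
    · exact ev_lin_right _ _
  have key4 : ∀ i : Bool, ∃ S ∈ Mot G c (fun v => P (i, some v)), ∃ r : ℝ,
      X = (S s - S t) + r • lin (P (i, none)) (P (i, some s)) := fun i =>
    decompose hMT G c s t h2 h0 (fun x => P (i, x)) (key i) (hGPP _ _ (by simp)) (key3 i).1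
      (key3 i).2 X (hXi i)
  choose S hS r hr using key4
  have hS1 := fun i => (mem_Mot.mp (hS i)).1
  have hS2 := fun i => (mem_Mot.mp (hS i)).2
  let S' : Bool × Option V → Scr := fun x => x.2.elim X (fun v => S x.1 v - S x.1 t)
  have hS' : S' ∈ Mot (Gdbl G s) (cdbl c t) P := by
    rw [mem_Mot]
    constructor
    · rintro ⟨i, u⟩ ⟨j, w⟩ h
      cases u with
      | none =>
        cases w with
        | none => rfl
        | some w =>
          exfalso
          simp only [cdbl] at h
          split_ifs at h <;> simp at h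
      | some u =>
        cases w with
        | none =>
          exfalso
          simp only [cdbl] at h
          split_ifs at h <;> simp at h
        | some w =>
          change S i u - S i t = S j w - S j t
          simp only [cdbl] at h
          split_ifs at h with h1 h2 h2
          · rw [hS1 i u t h1, hS1 j w t h2, sub_self, sub_self]
          · simp only [Prod.mk.injEq, Option.some.injEq] at h
            exact absurd h.2.symm h2
          · simp only [Prod.mk.injEq, Option.some.injEq] at h
            exact absurd h.2 h1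
          · simp only [Prod.mk.injEq, Option.some.injEq] at h
            obtain ⟨rfl, h⟩ := h
            rw [hS1 i u w h]
    · rintro ⟨i, u⟩ ⟨j, w⟩ ⟨hij, h⟩
      simp only at hij
      subst hij
      rcases h with ⟨u', w', h1, h2, h3⟩ | ⟨h1, h2⟩ | ⟨h1, h2⟩
      · simp only at h1 h2
        subst h1 h2
        change ev (S i u' - S i t) (P (i, some u')) = ev (S i w' - S i t) (P (i, some u'))
        rw [ev_sub, ev_sub, hS2 i u' w' h3]
      · simp only at h1 h2
        subst h1 h2
        change ev X (P (i, none)) = ev (S i s - S i t) (P (i, none))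
        conv_lhs => rw [hr i]
        rw [ev_add, ev_smul, ev_lin_left, smul_zero, add_zero]
      · simp only at h1 h2
        subst h1 h2
        change ev (S i s - S i t) (P (i, some s)) = ev X (P (i, some s))
        conv_rhs => rw [hr i]
        rw [ev_add, ev_smul, ev_lin_right, smul_zero, add_zero]
  have hfin := hMT _ (Gdbl G s) (cdbl c t) 0 P hP (hDBL V G c s t hst h2 h0)
  rw [add_zero] at hfin
  have h5 := Mot_const hfin hS' (false, none) (false, some t)
  apply hX0
  have h6 : X = S false t - S false t := h5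
  rw [h6, sub_self]

end Pool.Agent.H13.MG
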